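import Pool.Agent.Helper61K9.CT.Trf

/-!
# Few zeros
-/

set_option autoImplicit false
set_option linter.unusedSectionVars false

namespace Pool.Agent.Helper61K9.CT

open Matrix Polynomial Filter Topology Pool.Agent.Helper51K9.TI Pool.Agent.R389
  Pool.Agent.Helper61K9.CV Pool.Agent.H541R3.ART Pool.Agent.W446.AS

section

variable {Γ : Type} [Group Γ] {E : Type} [Field E] {n : ℕ} {P : Type} {M : Realizations Γ E n P}
  {N : Subgroup Γ} [N.Normal] [Finite (Γ ⧸ N)] {W z z' : ℂ} {E' : Type} [Field E'] [NumberField E']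
  [Algebra E E'] [Algebra.IsAlgebraic E E']

/-- all the L-functions are finite and nonzero at `z'` -/
def Nonvan (M : Realizations Γ E n P) (N : Subgroup Γ) (z' : ℂ) (E' : Type) [Field E']
    [Algebra E E'] : Prop :=
  ∀ (r : Type) [Fintype r] [DecidableEq r] (ρ : Γ →* Matrix r r E'), (∀ γ ∈ N, ρ γ = 1) →
    ∀ ℓ, IsLFunction M ρ ℓ → ∀ τ : E' →+* ℂ, ∃ a' : ℂ, a' ≠ 0 ∧ Tendsto (ℓ τ) (𝓝[≠] z') (𝓝 a')

variable {L : (E' →+* ℂ) → ((Γ ⧸ N) → ℂ) → ℂ → ℂ} {Pe : (E' →+* ℂ) → ((Γ ⧸ N) → ℂ) → ℂ}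

theorem pull_trivial (U : Subgroup (Γ ⧸ N)) (ψ : U →* E'ˣ)
    (γ : U.comap (QuotientGroup.mk' N)) (hγ : (γ : Γ) ∈ N) :
    pull (QuotientGroup.mk' N) U ψ γ = 1 := by
  have h1 : QuotientGroup.mk' N (γ : Γ) = 1 := (QuotientGroup.eq_one_iff _).2 hγ
  change ψ _ = 1
  have h2 : ∀ x : U, (x : Γ ⧸ N) = 1 → ψ x = 1 := by
    intro x hx
    have : x = 1 := Subtype.ext hx
    rw [this, map_one]
  exact h2 _ h1

theorem le_comap (U : Subgroup (Γ ⧸ N)) : N ≤ U.comap (QuotientGroup.mk' N) := by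
  intro γ hγ
  rw [Subgroup.mem_comap]
  have h1 : QuotientGroup.mk' N (γ : Γ) = 1 := (QuotientGroup.eq_one_iff _).2 hγ
  rw [h1]
  exact U.one_mem

/-- orders -/
theorem Sys.order (hS : Sys M N W z z' L Pe) (hne : Nonvan M N z' E') {U : Subgroup (Γ ⧸ N)}
    {V : Subgroup Γ} (hV : V = U.comap (QuotientGroup.mk' N)) [Fintype (Γ ⧸ V)]
    [DecidableEq (Γ ⧸ V)] (ψ : U →* E'ˣ) (ψ' : V →* E'ˣ)
    (hψ : ∀ (γ : Γ) (h : γ ∈ V) (h' : QuotientGroup.mk' N γ ∈ U), ψ' ⟨γ, h⟩ = ψ ⟨_, h'⟩)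
    {ℓ : (E' →+* ℂ) → ℂ → ℂ} (hℓ : IsLFunction M (induced V ψ') ℓ) (τ : E' →+* ℂ)
    {k : ((Γ ⧸ N) → ℂ) → ℕ}
    (hk : IsDecomp (fun g => τ (ind U (fun u => ((ψ u : E'ˣ) : E')) g)) k) :
    meromorphicOrderAt (fun s => ∏ᶠ χ ∈ Irr (Γ ⧸ N), L τ χ s ^ k χ) z
      = meromorphicOrderAt (ℓ τ) z := by
  subst hV
  have hψ' : ψ' = pull (QuotientGroup.mk' N) U ψ := by
    ext γ
    congr 1
    exact hψ γ γ.2 γ.2
  subst hψ'
  have htriv : ∀ γ ∈ N, induced (U.comap (QuotientGroup.mk' N))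
      (pull (QuotientGroup.mk' N) U ψ) γ = 1 :=
    induced_trivial N _ (le_comap U) _ (pull_trivial U ψ)
  choose v hv0 hv using hne _ _ htriv ℓ hℓ
  have hR : Rl M N W z' (fun γ => ind U (fun u => ((ψ u : E'ˣ) : E')) (QuotientGroup.mk' N γ)) ℓ
      (fun τ => W ^ Fintype.card (Γ ⧸ U.comap (QuotientGroup.mk' N)) * v τ) :=
    ⟨_, inferInstance, inferInstance, _, htriv,
      fun γ => trace_induced (QuotientGroup.mk' N) (QuotientGroup.mk'_surjective N) U ψ γ,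
      hℓ, v, fun τ => ⟨hv0 τ, hv τ⟩, fun τ => rfl⟩
  obtain ⟨h1, -⟩ := hS _ ℓ _ hR ⟨τ, ind_closure U ψ _⟩
  exact meromorphicOrderAt_congr (h1 τ k hk)

variable {ζ : E'} (hζ : IsPrimitiveRoot ζ (Monoid.exponent (Γ ⧸ N)))
  (hL : ∀ τ, ∀ χ ∈ Irr (Γ ⧸ N), MeromorphicAt (L τ χ) z ∧ meromorphicOrderAt (L τ χ) z ≠ ⊤)
  (hP : ∀ τ, ∀ χ ∈ Irr (Γ ⧸ N), Pe τ χ ≠ 0)
  (hmon : ∀ (U : Subgroup (Γ ⧸ N)) (ψ : U →* E'ˣ), Group.IsSolvable U →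
    Deligne L Pe z (ind U (fun u => ((ψ u : E'ˣ) : E'))))
  (hS : Sys M N W z z' L Pe) (hne : Nonvan M N z' E')
  [Fintype (Γ ⧸ N)] [DecidableEq (Γ ⧸ N)] {ℓ ℓ₀ : (E' →+* ℂ) → ℂ → ℂ}
  (hℓ : IsLFunction M (induced N (1 : N →* E'ˣ)) ℓ)
  (K : Subgroup (Γ ⧸ N)) [hKn : K.Normal] (lam : (Γ ⧸ N) →* E'ˣ)
  {V : Subgroup Γ} (hV : V = K.comap (QuotientGroup.mk' N)) [Fintype (Γ ⧸ V)]
  [DecidableEq (Γ ⧸ V)] (hℓ₀ : IsLFunction M (induced V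
    ((lam.comp (QuotientGroup.mk' N)).comp V.subtype)) ℓ₀) (τ₀ : E' →+* ℂ)

include hζ hL hP hmon hS hne hℓ

theorem order_reg {deg : ((Γ ⧸ N) → ℂ) → ℕ} (hdeg : ∀ χ ∈ Irr (Γ ⧸ N), χ 1 = deg χ) :
    meromorphicOrderAt (fun s => ∏ᶠ χ ∈ Irr (Γ ⧸ N), L τ₀ χ s ^ deg χ) z
      = meromorphicOrderAt (ℓ τ₀) z := by
  refine hS.order hne (U := ⊥) (V := N) ?_ 1 1 (fun γ h h' => rfl) hℓ τ₀ (decomp_reg τ₀ hdeg)
  rw [MonoidHom.comap_bot, QuotientGroup.ker_mk']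

/-- order at most one -/
theorem core_one (hz : meromorphicOrderAt (ℓ τ₀) z ≤ 1) {r : Type} [Fintype r]
    [DecidableEq r] (s : (Γ ⧸ N) →* Matrix r r E') : Deligne L Pe z (toRep s).character := by
  obtain ⟨deg, hdeg⟩ := exists_deg (Γ ⧸ N)
  have h1 := order_reg hζ hL hP hmon hS hne hℓ τ₀ hdeg
  have htopP : IsPGroup 2 ((Γ ⧸ N) ⧸ (⊤ : Subgroup (Γ ⧸ N))) := by
    intro q
    refine ⟨0, ?_⟩
    obtain ⟨g, rfl⟩ := QuotientGroup.mk_surjective q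
    rw [pow_zero, pow_one]
    exact (QuotientGroup.eq_one_iff g).mpr (Subgroup.mem_top g)
  exact Pool.Agent.R389.main hζ hL hP (fun U ψ hU => hmon U ψ (Tame.solvable (Or.inl hU))) τ₀ hdeg
    Nat.prime_two ⊤ htopP 1 (by rw [h1]; exact le_max_of_le_left hz) (toRep s)

include hV hℓ₀

theorem order_old {deg : ((Γ ⧸ N) → ℂ) → ℕ} (hdeg : ∀ χ ∈ Irr (Γ ⧸ N), χ 1 = deg χ) :
    meromorphicOrderAt (fun s => ∏ᶠ χ ∈ {χ ∈ Irr (Γ ⧸ N) | ∀ k ∈ K, χ k = χ 1 * τ₀ ((lam k : E'ˣ) : E')},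
      L τ₀ χ s ^ deg χ) z = meromorphicOrderAt (ℓ₀ τ₀) z := by
  classical
  have h2 := hS.order hne (U := K) (V := V) hV (lam.comp K.subtype)
    ((lam.comp (QuotientGroup.mk' N)).comp V.subtype) (fun γ h h' => rfl) hℓ₀ τ₀
    (decomp_old τ₀ K lam hdeg)
  rw [← h2]
  congr 1
  funext s
  exact prod_old (fun χ : (Γ ⧸ N) → ℂ => ∀ k ∈ K, χ k = χ 1 * τ₀ ((lam k : E'ˣ) : E')) deg
    (fun χ => L τ₀ χ s)

/-- old zeros, `p`-groups -/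
theorem core_p {p : ℕ} (hp : p.Prime) (hQ : IsPGroup p ((Γ ⧸ N) ⧸ K))
    (hz : meromorphicOrderAt (ℓ τ₀) z ≤ max 1 (meromorphicOrderAt (ℓ₀ τ₀) z)) {r : Type} [Fintype r]
    [DecidableEq r] (s : (Γ ⧸ N) →* Matrix r r E') : Deligne L Pe z (toRep s).character := by
  obtain ⟨deg, hdeg⟩ := exists_deg (Γ ⧸ N)
  have h1 := order_reg hζ hL hP hmon hS hne hℓ τ₀ hdeg
  have h2 := order_old hζ hL hP hmon hS hne hℓ K lam hV hℓ₀ τ₀ hdeg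
  refine Pool.Agent.R389.main hζ hL hP (fun U ψ hU => hmon U ψ (Tame.solvable (Or.inl hU))) τ₀ hdeg
    hp K hQ ((Units.map τ₀.toMonoidHom).comp lam) ?_ (toRep s)
  rw [h1]
  refine hz.trans (le_of_eq ?_)
  rw [← h2]
  rfl

/-- old zeros, M-groups -/
theorem core_old (hsol : Group.IsSolvable (Γ ⧸ N)) (hQ : ∀ χ ∈ Irr ((Γ ⧸ N) ⧸ K), Mono χ)
    (hz : meromorphicOrderAt (ℓ τ₀) z ≤ max 1 (meromorphicOrderAt (ℓ₀ τ₀) z)) {r : Type} [Fintype r]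
    [DecidableEq r] (s : (Γ ⧸ N) →* Matrix r r E') : Deligne L Pe z (toRep s).character := by
  rcases le_max_iff.mp hz with hz | hz
  · exact core_one hζ hL hP hmon hS hne hℓ τ₀ hz s
  obtain ⟨deg, hdeg⟩ := exists_deg (Γ ⧸ N)
  have h1 := order_reg hζ hL hP hmon hS hne hℓ τ₀ hdeg
  have h2 := order_old hζ hL hP hmon hS hne hℓ K lam hV hℓ₀ τ₀ hdeg
  have hmon' : ∀ (U : Subgroup (Γ ⧸ N)) (ψ : U →* E'ˣ),
      Deligne L Pe z (ind U (fun u => ((ψ u : E'ˣ) : E'))) := fun U ψ => hmon U ψ inferInstance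
  exact Pool.Agent.R389.main_grow hζ hL hP (fun U ψ _ => hmon' U ψ) τ₀
    hdeg K lam (fun W _ _ _ σ hσ => old_deligne hζ hL hP K hQ
      (fun U ψ _ => hmon' U ψ) τ₀ lam σ hσ) (by
      rw [h1]
      refine hz.trans (le_of_eq ?_)
      rw [← h2]) (toRep s)

end

end Pool.Agent.Helper61K9.CT
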