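import Pool.Agent.Helper61K9.CT.Def
import Pool.Agent.Helper61K9.CT.Core
import Pool.Agent.Helper51K9.TI.Main

/-!
# The formula for completed L-functions and for L-functions, over `K` and over `F`
-/

set_option autoImplicit false
set_option linter.unusedSectionVars false

namespace Pool.Agent.Helper61K9.CT

open Matrix Polynomial Filter Topology NumberField IsDedekindDomain Pool.Agent.Helper51K9.TI

section

variable {Γ : Type} [Group Γ] {E : Type} [Field E] {n : ℕ} {P : Type} (M : Realizations Γ E n P)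
  {E' : Type} [Field E'] [NumberField E'] [Algebra E E'] [Algebra.IsAlgebraic E E']
  (E'' : Type) [Field E''] [NumberField E''] [Algebra E E''] [Algebra E' E'']
  [IsScalarTower E E' E''] [Algebra.IsAlgebraic E' E''] {r : Type} [Fintype r] [DecidableEq r]
  (ρ : Γ →* Matrix r r E')

/-- descent of the coefficient field -/
theorem ratioZ_desc {W z z' : ℂ} (hW : W ≠ 0) (h : RatioZ M W z z' (baseRep E'' ρ)) :
    RatioZ M W z z' ρ := by
  intro L hL
  obtain ⟨e'', he''⟩ := h _ (isL_base M E'' ρ hL)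
  have huniq : ∀ τ σ : E'' →+* ℂ, τ.comp (algebraMap E' E'') = σ.comp (algebraMap E' E'') →
      τ e'' = σ e'' := by
    intro τ σ hτσ
    obtain ⟨a', h2, h4, h5⟩ := he'' τ
    obtain ⟨b', k2, k4, k5⟩ := he'' σ
    simp only [hτσ] at h4 h5
    have e2 := tendsto_nhds_unique h4 k4
    subst e2
    have e1 := tendsto_nhds_unique h5 k5
    exact mul_right_cancel₀ (pow_ne_zero _ hW) (mul_right_cancel₀ h2 e1)
  obtain ⟨τ₀⟩ : Nonempty (E' →+* ℂ) := inferInstance
  obtain ⟨τ₁, hτ₁⟩ := exists_ext E' E'' ℂ τ₀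
  obtain ⟨e, he⟩ : ∃ a : E', algebraMap E' E'' a = e'' := by
    let _ : Algebra E' ℂ := τ₀.toAlgebra
    refine mem_of_conj (K := ℂ) e'' (τ₁ e'') fun j => ?_
    have h1 : (j : E'' →+* ℂ).comp (algebraMap E' E'') = τ₀ := RingHom.ext fun x => j.commutes x
    exact huniq (j : E'' →+* ℂ) τ₁ (by rw [h1, hτ₁])
  refine ⟨e, fun τ => ?_⟩
  obtain ⟨τ', hτ'⟩ := exists_ext E' E'' ℂ τ
  obtain ⟨a', h1, h3, h4⟩ := he'' τ'
  simp only [hτ'] at h3 h4
  refine ⟨a', h1, h3, ?_⟩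
  rw [← he] at h4
  have h5 : τ' (algebraMap E' E'' e) = τ e := by rw [← hτ']; rfl
  rwa [h5] at h4

end

section

variable {A : Type} [Field A] [CharZero A] {F : IntermediateField ℚ A} {E : Type} [Field E] {n : ℕ}
  (M : Motive F E n) {E' : Type} [Field E'] [CharZero E'] [Algebra E E'] {r : Type} [Fintype r]
  [DecidableEq r]

/-- the formula with the constant `C` -/
def RFZ (m : ℤ) (C : ℂ) (ρ : F.fixingSubgroup →* Matrix r r E') : Prop :=
  ∀ Λ, IsCompletedLFunction M ρ Λ →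
    ∃ e : E', ∀ τ : E' →+* ℂ, ∃ a' : ℂ, a' ≠ 0 ∧
      Tendsto (Λ τ) (𝓝[≠] ((m + 1 : ℤ) : ℂ)) (𝓝 a') ∧
      Tendsto (Λ τ) (𝓝[≠] (m : ℂ)) (𝓝 (τ e * C * a'))

theorem RFZ.congr {m : ℤ} {C C' : ℂ} {ρ : F.fixingSubgroup →* Matrix r r E'} (h : RFZ M m C ρ)
    (q : ℚ) (hq : q ≠ 0) (hC : C' = q * C) : RFZ M m C' ρ := by
  intro Λ hΛ
  obtain ⟨e, h1⟩ := h Λ hΛ
  refine ⟨e * (q : E')⁻¹, fun τ => ?_⟩
  obtain ⟨a', h3, h4, h5⟩ := h1 τ
  refine ⟨a', h3, h4, ?_⟩
  have hq' : (q : ℂ) ≠ 0 := Rat.cast_ne_zero.2 hq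
  convert h5 using 2
  rw [hC, map_mul, map_inv₀, map_ratCast]
  field_simp

/-- the formula for the completed L-functions and for the L-functions -/
theorem rfz_iff {m : ℤ} (hm : IsCritical M m) {C : ℂ} (ρ : F.fixingSubgroup →* Matrix r r E') :
    RFZ M m (C ^ Fintype.card r) ρ ↔
      RatioZ M.toRealizations (C * (gammaFactor M 1 ((m + 1 : ℤ) : ℂ) / gammaFactor M 1 (m : ℂ)))
        (m : ℂ) ((m + 1 : ℤ) : ℂ) ρ := by
  have hs : ∀ j, (M.hodge j : ℝ) < ((m : ℂ)).re := by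
    intro j
    rw [Complex.intCast_re]
    exact_mod_cast (hm j).1
  have hs' : ∀ j, (M.hodge j : ℝ) < (((m + 1 : ℤ) : ℂ)).re := by
    intro j
    rw [Complex.intCast_re]
    have := (hm j).1
    exact_mod_cast this.trans (lt_add_one m)
  set g := gammaFactor M 1 (m : ℂ) with hg
  set g' := gammaFactor M 1 ((m + 1 : ℤ) : ℂ) with hg'
  have hg0 : g ≠ 0 := gamma_ne M 1 hs
  have hg0' : g' ≠ 0 := gamma_ne M 1 hs'
  have t1 := gamma_tendsto M (Fintype.card r) hs
  have t2 := gamma_tendsto M (Fintype.card r) hs'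
  rw [gamma_pow] at t1 t2
  have p1 : g ^ Fintype.card r ≠ 0 := pow_ne_zero _ hg0
  have p2 : g' ^ Fintype.card r ≠ 0 := pow_ne_zero _ hg0'
  have e1 : ∀ᶠ s in 𝓝[≠] (m : ℂ), gammaFactor M (Fintype.card r) s ≠ 0 := t1.eventually_ne p1
  have e2 : ∀ᶠ s in 𝓝[≠] ((m + 1 : ℤ) : ℂ), gammaFactor M (Fintype.card r) s ≠ 0 :=
    t2.eventually_ne p2
  constructor
  · intro h L hL
    obtain ⟨e, h1⟩ := h (fun τ s => gammaFactor M (Fintype.card r) s * L τ s)
      ⟨L, hL, fun τ s => rfl⟩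
    refine ⟨e, fun τ => ?_⟩
    obtain ⟨a', h3, h4, h5⟩ := h1 τ
    refine ⟨a' / g' ^ Fintype.card r, div_ne_zero h3 p2, ?_, ?_⟩
    · refine (h4.div t2 p2).congr' ?_
      filter_upwards [e2] with s hs
      exact mul_div_cancel_left₀ _ hs
    · have h6 := (h5.div t1 p1).congr' (f₂ := L τ) (by
        filter_upwards [e1] with s hs
        exact mul_div_cancel_left₀ _ hs)
      convert h6 using 2
      rw [mul_pow, div_pow, ← hg]
      field_simp
  · rintro h Λ ⟨L, hL, hΛ⟩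
    obtain ⟨e, h1⟩ := h L hL
    refine ⟨e, fun τ => ?_⟩
    obtain ⟨a', h3, h4, h5⟩ := h1 τ
    have hτ : Λ τ = fun s => gammaFactor M (Fintype.card r) s * L τ s := funext fun s => hΛ τ s
    refine ⟨g' ^ Fintype.card r * a', mul_ne_zero p2 h3, ?_, ?_⟩
    · rw [hτ]
      exact t2.mul h4
    · rw [hτ]
      have h6 := t1.mul h5
      convert h6 using 2
      rw [mul_pow, div_pow, ← hg]
      field_simp

theorem gammaC_mero (s : ℂ) : MeromorphicAt Complex.Gammaℂ s := by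
  have h1 : MeromorphicAt (fun s => (Complex.Gammaℂ s)⁻¹) s :=
    (Complex.differentiable_Gammaℂ_inv.analyticAt s).meromorphicAt
  have h2 := h1.inv
  have h3 : (fun s => (Complex.Gammaℂ s)⁻¹)⁻¹ = Complex.Gammaℂ := by
    funext x
    rw [Pi.inv_apply, inv_inv]
  rwa [h3] at h2

theorem gamma_mero (k : ℕ) (s : ℂ) : MeromorphicAt (gammaFactor M k) s := by
  unfold gammaFactor
  have h1 : ∀ j, MeromorphicAt (fun s : ℂ => Complex.Gammaℂ (s - M.hodge j) ^ k) s := by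
    intro j
    have h2 : MeromorphicAt (fun s : ℂ => Complex.Gammaℂ (s - M.hodge j)) s :=
      MeromorphicAt.comp_analyticAt (f := Complex.Gammaℂ) (g := fun s : ℂ => s - M.hodge j)
        (gammaC_mero _) (by fun_prop)
    exact h2.pow k
  exact MeromorphicAt.fun_prod fun j _ => h1 j

/-- the orders at a critical integer of the L-function and of the completed L-function -/
theorem order_completed {m : ℤ} (hm : IsCritical M m) (k : ℕ) {f : ℂ → ℂ}
    (hf : MeromorphicAt f (m : ℂ)) :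
    meromorphicOrderAt (fun s => gammaFactor M k s * f s) (m : ℂ)
      = meromorphicOrderAt f (m : ℂ) := by
  have hs : ∀ j, (M.hodge j : ℝ) < ((m : ℂ)).re := by
    intro j
    rw [Complex.intCast_re]
    exact_mod_cast (hm j).1
  have h1 := gamma_mero M k (m : ℂ)
  have h2 : meromorphicOrderAt (gammaFactor M k) (m : ℂ) = 0 :=
    (tendsto_ne_zero_iff_meromorphicOrderAt_eq_zero h1).1
      ⟨_, gamma_ne M k hs, gamma_tendsto M k hs⟩
  have h3 := meromorphicOrderAt_mul h1 hf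
  rw [h2, zero_add] at h3
  exact h3

end

section

variable {A : Type} [Field A] [CharZero A] [IsAlgClosed A] [Algebra.IsAlgebraic ℚ A]
  (hD : S_DELTA) {ι : A →+* ℂ} {c : A ≃ₐ[ℚ] A} (hc : IsConj ι c) {F : IntermediateField ℚ A}
  [FiniteDimensional ℚ F] (hF : TotallyImaginary c F) {E : Type} [Field E] {n : ℕ}
  (M : Motive F E n) {E' : Type} [Field E'] [CharZero E'] [Algebra E E'] {r : Type} [Fintype r]
  [DecidableEq r]

include hD hc hF

/-- Deligne's formula over `K` and over `F` -/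
theorem formulaZ_down (K : IntermediateField ℚ A) [FiniteDimensional ℚ K] (hFK : F ≤ K) (m : ℤ)
    (k : ℕ) (ρ : F.fixingSubgroup →* Matrix r r E') (h : RatioFormulaZ M ι c m K k ρ) :
      RatioFormulaZ M ι c m F (k * IntermediateField.relfinrank F K) ρ := by
  intro Λ hΛ δ hδ
  obtain ⟨δ', hδ'⟩ := exists_delta ι c K
  obtain ⟨q, hq, h1⟩ := const_eq hD hc hF K hFK hδ hδ' k
  have h2 : RFZ M m ((Complex.I ^ (Module.finrank ℚ K / 2) * ι δ') ^ k) ρ :=
    fun Λ hΛ => h Λ hΛ δ' hδ'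
  have hq' : (q : ℂ) ≠ 0 := Rat.cast_ne_zero.2 hq
  exact h2.congr M q⁻¹ (inv_ne_zero hq) (by
    rw [h1, Rat.cast_inv, inv_mul_cancel_left₀ hq']) Λ hΛ

/-- Deligne's formula for `M ⊗ ρ` in terms of the L-functions -/
theorem formulaZ_iff {m : ℤ} (hm : IsCritical M m) {δ : A} (hδ : IsDelta ι c F δ)
    (ρ : F.fixingSubgroup →* Matrix r r E') :
    RatioFormulaZ M ι c m F (n * Fintype.card r) ρ ↔
      RatioZ M.toRealizations ((Complex.I ^ (Module.finrank ℚ F / 2) * ι δ) ^ n *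
        (gammaFactor M 1 ((m + 1 : ℤ) : ℂ) / gammaFactor M 1 (m : ℂ)))
        (m : ℂ) ((m + 1 : ℤ) : ℂ) ρ := by
  rw [← rfz_iff M hm]
  have h1 : ((Complex.I ^ (Module.finrank ℚ F / 2) * ι δ) ^ n) ^ Fintype.card r =
      (Complex.I ^ (Module.finrank ℚ F / 2) * ι δ) ^ (n * Fintype.card r) := (pow_mul _ _ _).symm
  rw [h1]
  constructor
  · intro h Λ hΛ
    exact h Λ hΛ δ hδ
  · intro h Λ hΛ δ' hδ'
    obtain ⟨q, hq, h2⟩ := const_eq hD hc hF F le_rfl hδ hδ' (n * Fintype.card r)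
    rw [IntermediateField.relfinrank_self, mul_one] at h2
    exact h.congr M q hq h2 Λ hΛ

end

end Pool.Agent.Helper61K9.CT
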