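import Pool.Agent.Helper51K9.TI.Mot
import Pool.Agent.R389.Defs

/-!
# Ratios of critical values when the first value can vanish
-/

set_option autoImplicit false

namespace Pool.Agent.Helper61K9.CT

open Matrix Filter Topology NumberField IsDedekindDomain Pool.Agent.Helper51K9.TI

/-- M-groups: every irreducible complex representation of `G` is induced from a one-dimensional
representation of a subgroup (for example nilpotent, supersolvable or metabelian groups) -/
def IsMGroup (G : Type) [Group G] : Prop :=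
  ∀ (k : ℕ) (σ : Representation ℂ G (Fin k → ℂ)), σ.IsIrreducible →
    ∃ (U : Subgroup G) (ψ : U →* ℂˣ),
      σ.character = Pool.Agent.R389.ind U (fun u => ((ψ u : ℂˣ) : ℂ))

section

variable {A : Type} [Field A] [CharZero A] {F : IntermediateField ℚ A} {E : Type} [Field E] {n : ℕ}
  (M : Motive F E n)

/-- **Deligne's formula** `L(m, N) / L(m + 1, N) = e (i ^ (d / 2) Δ) ^ k` **with `e` in the field of
coefficients `E'`, possibly `0`**, for a motive `N` of rank `k` over the field `K` of degree `d` over `ℚ`,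
`Δ = Δ_K`, whose L-function is the one of `M ⊗ ρ`: the completed L-function is finite and nonzero at
`m + 1`, finite at `m` (where it can vanish), and the quotient of the values is the given one, with the same
element `e` of `E'` for all the embeddings `τ` of `E'` -/
def RatioFormulaZ {E' : Type} [Field E'] [Algebra E E'] {r : Type} [Fintype r] [DecidableEq r]
    (ι : A →+* ℂ) (c : A ≃ₐ[ℚ] A) (m : ℤ) (K : IntermediateField ℚ A) (k : ℕ)
    (ρ : F.fixingSubgroup →* Matrix r r E') : Prop :=
  ∀ Λ, IsCompletedLFunction M ρ Λ → ∀ δ, IsDelta ι c K δ →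
    ∃ e : E', ∀ τ : E' →+* ℂ, ∃ a' : ℂ, a' ≠ 0 ∧
      Tendsto (Λ τ) (𝓝[≠] ((m + 1 : ℤ) : ℂ)) (𝓝 a') ∧
      Tendsto (Λ τ) (𝓝[≠] (m : ℂ))
        (𝓝 (τ e * (Complex.I ^ (Module.finrank ℚ K / 2) * ι δ) ^ k * a'))

/-- **The hypothesis**: for all the fields `K` between `F` and `Ω` such that the Galois group of `Ω` over
`K` is solvable, and all characters `ψ` of this Galois group with values in number fields that contain
`E`, the L-function of `M_K ⊗ ψ`, that is of `M ⊗ Ind ψ`, exists and satisfies the formula over `K` -/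
def SolvableRatios (ι : A →+* ℂ) (c : A ≃ₐ[ℚ] A) (m : ℤ) (Ω : IntermediateField ℚ A)
    [(gal F Ω).Normal] : Prop :=
  ∀ (E' : Type) [Field E'] [NumberField E'] [Algebra E E'] (K : IntermediateField ℚ A),
    F ≤ K → K ≤ Ω → Group.IsSolvable ((gal F K).map (QuotientGroup.mk' (gal F Ω))) →
    ∀ [Fintype (F.fixingSubgroup ⧸ gal F K)] [DecidableEq (F.fixingSubgroup ⧸ gal F K)]
      (ψ : gal F K →* E'ˣ), (∀ γ : gal F K, ((γ : F.fixingSubgroup) : A ≃ₐ[ℚ] A) ∈ Ω.fixingSubgroup →
        ψ γ = 1) → HasL M.toRealizations (induced (gal F K) ψ) ∧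
          RatioFormulaZ M ι c m K n (induced (gal F K) ψ)

/-- `F₀ / F` is a Galois extension of degree a power of a prime, or `Ω / F` is solvable and the Galois group
of `F₀ / F` is an M-group -/
def Admissible (F F₀ Ω : IntermediateField ℚ A) [(gal F F₀).Normal] [(gal F Ω).Normal] : Prop :=
  (∃ p : ℕ, p.Prime ∧ IsPGroup p (F.fixingSubgroup ⧸ gal F F₀)) ∨
    (Group.IsSolvable (F.fixingSubgroup ⧸ gal F Ω) ∧ IsMGroup (F.fixingSubgroup ⧸ gal F F₀))

/-- at the embedding `τ₀`, the order of vanishing at `m` of the L-function of `M_Ω`, that is of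
`M ⊗ Ind 1`, is at most `1` or at most the one of the L-function of `M_{F₀} ⊗ lam`, that is of
`M ⊗ Ind (lam | F₀)` -/
def OrderLE {E' : Type} [Field E'] [Algebra E E'] (m : ℤ) (Ω F₀ : IntermediateField ℚ A)
    (lam : F.fixingSubgroup →* E'ˣ) (τ₀ : E' →+* ℂ) : Prop :=
  ∃ (_ : Fintype (F.fixingSubgroup ⧸ gal F Ω)) (_ : DecidableEq (F.fixingSubgroup ⧸ gal F Ω))
    (_ : Fintype (F.fixingSubgroup ⧸ gal F F₀)) (_ : DecidableEq (F.fixingSubgroup ⧸ gal F F₀))
    (Λ Λ₀ : (E' →+* ℂ) → ℂ → ℂ),
    IsCompletedLFunction M (induced (gal F Ω) (1 : gal F Ω →* E'ˣ)) Λ ∧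
    IsCompletedLFunction M (induced (gal F F₀) (lam.comp (gal F F₀).subtype)) Λ₀ ∧
    meromorphicOrderAt (Λ τ₀) (m : ℂ) ≤ max 1 (meromorphicOrderAt (Λ₀ τ₀) (m : ℂ))

/-- **The condition on the zeros**: for one admissible subfield `F₀` of `Ω` (see `Admissible`), one
character `lam` of the Galois group of `Ω / F`, with values in some extension `E'` of `E`, and one
embedding `τ₀` of `E'`, the order of vanishing at `m` of the L-function of `M_Ω` is at most `1` or at most
the one of `M_{F₀} ⊗ lam` -/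
def FewZeros (m : ℤ) (Ω : IntermediateField ℚ A) [(gal F Ω).Normal] : Prop :=
  ∃ (E' : Type) (_ : Field E') (_ : NumberField E') (_ : Algebra E E') (F₀ : IntermediateField ℚ A)
    (_ : (gal F F₀).Normal) (lam : F.fixingSubgroup →* E'ˣ) (τ₀ : E' →+* ℂ),
    F₀ ≤ Ω ∧ Admissible F F₀ Ω ∧ TrivialOn Ω lam ∧ OrderLE M m Ω F₀ lam τ₀

/-- **The conclusion**: for all representations `ρ` of the Galois group of `Ω / F` over extensions `E'` of
`E`, the L-function of `M ⊗ ρ` exists and satisfies the formula over `F` -/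
def AllRatios (ι : A →+* ℂ) (c : A ≃ₐ[ℚ] A) (m : ℤ) (Ω : IntermediateField ℚ A) : Prop :=
  ∀ (E' : Type) [Field E'] [NumberField E'] [Algebra E E'] (r : Type) [Fintype r] [DecidableEq r]
    (ρ : F.fixingSubgroup →* Matrix r r E'), TrivialOn Ω ρ →
    HasL M.toRealizations ρ ∧ RatioFormulaZ M ι c m F (n * Fintype.card r) ρ

end

end Pool.Agent.Helper61K9.CT
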