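import Pool.Agent.Helper61K9.CT.Arith

/-!
# Ratios of critical values when the first value can vanish: assembly
-/

set_option autoImplicit false
set_option linter.unusedSectionVars false

namespace Pool.Agent.Helper61K9.CT

open Matrix Polynomial Filter Topology NumberField IsDedekindDomain Pool.Agent.Helper51K9.TI
  Pool.Agent.R389 Pool.Agent.Helper61K9.CV Pool.Agent.H541R3.ART Pool.Agent.W446.AS

section

variable {Γ : Type} [Group Γ] {E : Type} [Field E] {n : ℕ} {P : Type} (M : Realizations Γ E n P)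
  {E' : Type} [Field E'] [Algebra E E'] {E'' : Type} [Field E''] [Algebra E' E'']

/-- extension of the coefficients of an induced representation -/
theorem base_induced (V : Subgroup Γ) [Fintype (Γ ⧸ V)] [DecidableEq (Γ ⧸ V)] (ψ : V →* E'ˣ)
    (ψ'' : V →* E''ˣ) (h : ∀ γ, ((ψ'' γ : E''ˣ) : E'') = algebraMap E' E'' (ψ γ : E')) :
    baseRep E'' (induced V ψ) = induced V ψ'' := by
  refine MonoidHom.ext fun γ => ?_
  ext x y
  change algebraMap E' E'' (inducedMatrix V ψ γ x y) = inducedMatrix V ψ'' γ x y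
  rw [inducedMatrix, inducedMatrix, Matrix.of_apply, Matrix.of_apply]
  by_cases h1 : x.out⁻¹ * γ * y.out ∈ V
  · rw [dif_pos h1, dif_pos h1, h]
  · rw [dif_neg h1, dif_neg h1, map_zero]

end

/-- the quotient of the quotient -/
noncomputable def quoEquiv {Γ : Type} [Group Γ] (N V : Subgroup Γ) [N.Normal] [V.Normal] (h : N ≤ V) :
    haveI : (V.map (QuotientGroup.mk' N)).Normal :=
      Subgroup.Normal.map inferInstance _ (QuotientGroup.mk'_surjective N)
    Γ ⧸ V ≃* (Γ ⧸ N) ⧸ V.map (QuotientGroup.mk' N) :=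
  haveI : (V.map (QuotientGroup.mk' N)).Normal :=
    Subgroup.Normal.map inferInstance _ (QuotientGroup.mk'_surjective N)
  (QuotientGroup.quotientQuotientEquivQuotient N V h).symm

/-- a common extension of two fields of coefficients, with enough roots of unity -/
theorem exists_common (E E₁ E₂ : Type) [Field E] [NumberField E] [Field E₁] [NumberField E₁]
    [Field E₂] [NumberField E₂] [Algebra E E₁] [Algebra E E₂] (N : ℕ) [NeZero N] :
    ∃ (E'' : Type) (_ : Field E'') (_ : NumberField E'') (_ : Algebra E E'')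
      (_ : Algebra E₁ E'') (_ : Algebra E₂ E'') (_ : IsScalarTower E E₁ E'')
      (_ : IsScalarTower E E₂ E'') (ζ : E''), IsPrimitiveRoot ζ N := by
  have f1 : FiniteDimensional E E₁ := Module.Finite.of_restrictScalars_finite ℚ E E₁
  have f2 : FiniteDimensional E E₂ := Module.Finite.of_restrictScalars_finite ℚ E E₂
  let C : Type := AlgebraicClosure E
  let j1 : E₁ →ₐ[E] C := IsAlgClosed.lift
  let j2 : E₂ →ₐ[E] C := IsAlgClosed.lift
  let k : IntermediateField E C := j1.fieldRange ⊔ j2.fieldRange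
  have g1 : FiniteDimensional E j1.fieldRange := Module.Finite.of_surjective
    (j1.rangeRestrict.toLinearMap : E₁ →ₗ[E] j1.fieldRange) j1.rangeRestrict_surjective
  have g2 : FiniteDimensional E j2.fieldRange := Module.Finite.of_surjective
    (j2.rangeRestrict.toLinearMap : E₂ →ₗ[E] j2.fieldRange) j2.rangeRestrict_surjective
  have f4 : FiniteDimensional E k := inferInstance
  have hch : CharZero k := charZero_of_injective_algebraMap (algebraMap E k).injective
  let i1 : E₁ →ₐ[E] k := (IntermediateField.inclusion le_sup_left).comp j1.rangeRestrict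
  let i2 : E₂ →ₐ[E] k := (IntermediateField.inclusion le_sup_right).comp j2.rangeRestrict
  have hk : NumberField k := by
    have : IsScalarTower ℚ E k := IsScalarTower.of_algebraMap_eq' (Subsingleton.elim _ _)
    have : FiniteDimensional ℚ k := Module.Finite.trans E k
    exact { }
  obtain ⟨E'', _, _, _, _, _, _, ζ, hζ⟩ := exists_field E k N
  let _ : Algebra E₁ E'' := ((algebraMap k E'').comp (i1 : E₁ →+* k)).toAlgebra
  let _ : Algebra E₂ E'' := ((algebraMap k E'').comp (i2 : E₂ →+* k)).toAlgebra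
  refine ⟨E'', inferInstance, inferInstance, inferInstance, inferInstance, inferInstance,
    IsScalarTower.of_algebraMap_eq fun x => ?_, IsScalarTower.of_algebraMap_eq fun x => ?_, ζ, hζ⟩
  · change _ = algebraMap k E'' (i1 (algebraMap E E₁ x))
    rw [AlgHom.commutes, ← IsScalarTower.algebraMap_apply]
  · change _ = algebraMap k E'' (i2 (algebraMap E E₂ x))
    rw [AlgHom.commutes, ← IsScalarTower.algebraMap_apply]

variable {A : Type} [Field A] [CharZero A] [IsAlgClosed A] [Algebra.IsAlgebraic ℚ A]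
  (hD : S_DELTA) {ι : A →+* ℂ} {c : A ≃ₐ[ℚ] A} (hc : IsConj ι c) {F : IntermediateField ℚ A}
  [FiniteDimensional ℚ F] (hF : TotallyImaginary c F) {E : Type} [Field E] [NumberField E] {n : ℕ}
  (M : Motive F E n) {m : ℤ} (hm : IsCritical M m) (Ω : IntermediateField ℚ A)
  [FiniteDimensional ℚ Ω] (hΩ : F ≤ Ω) [(gal F Ω).Normal]

include hD hc hF hm hΩ

/-- the hypothesis in terms of subgroups and L-functions -/
theorem hyp_sub (h : SolvableRatios M ι c m Ω) {δ : A} (hδ : IsDelta ι c F δ) (k : Type) [Field k]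
    [NumberField k] [Algebra E k] (U : Subgroup F.fixingSubgroup) (hU : gal F Ω ≤ U)
    (hsol : Group.IsSolvable (U.map (QuotientGroup.mk' (gal F Ω))))
    [Fintype (F.fixingSubgroup ⧸ U)] [DecidableEq (F.fixingSubgroup ⧸ U)] (ψ : U →* kˣ)
    (hψ : ∀ γ : U, (γ : F.fixingSubgroup) ∈ gal F Ω → ψ γ = 1) :
    HasL M.toRealizations (induced U ψ) ∧
      RatioZ M.toRealizations ((Complex.I ^ (Module.finrank ℚ F / 2) * ι δ) ^ n *
        (gammaFactor M 1 ((m + 1 : ℤ) : ℂ) / gammaFactor M 1 (m : ℂ)))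
        (m : ℂ) ((m + 1 : ℤ) : ℂ) (induced U ψ) := by
  obtain ⟨K, hFK, hKΩ, rfl⟩ := exists_field_of F Ω hΩ U hU
  obtain ⟨h1, h2⟩ := h k K hFK hKΩ hsol ψ (fun γ hγ => hψ γ (Subgroup.mem_subgroupOf.2 hγ))
  have hfd : FiniteDimensional ℚ K :=
    Module.Finite.of_injective (IntermediateField.inclusion hKΩ).toLinearMap
      (IntermediateField.inclusion hKΩ).injective
  have h3 := formulaZ_down hD hc hF M K hFK m n _ h2
  rw [← card_quot F K hFK, formulaZ_iff hD hc hF M hm hδ] at h3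
  exact ⟨h1, h3⟩

/-- existence and values at `m + 1` of the L-functions -/
theorem exists_all (h : SolvableRatios M ι c m Ω) (E' : Type) [Field E'] [NumberField E']
    [Algebra E E'] (r : Type) [Fintype r] [DecidableEq r]
    (ρ : F.fixingSubgroup →* Matrix r r E') (hρ : ∀ γ ∈ gal F Ω, ρ γ = 1) :
    Good M.toRealizations 1 ((m + 1 : ℤ) : ℂ) ((m + 1 : ℤ) : ℂ) ρ := by
  obtain ⟨δ, hδ⟩ := exists_delta ι c F
  have hfin : Finite (F.fixingSubgroup ⧸ gal F Ω) := finite_quot F Ω hΩ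
  refine good_all M.toRealizations (gal F Ω) one_ne_zero ?_ ρ hρ
  intro k _ _ _ U hU hnil _ _ ψ hψ
  have hsol : Group.IsSolvable (U.map (QuotientGroup.mk' (gal F Ω))) :=
    Tame.solvable (Or.inr hnil)
  obtain ⟨⟨L, hL, hz⟩, h2⟩ := hyp_sub hD hc hF M hm Ω hΩ h hδ k U hU hsol ψ hψ
  obtain ⟨e, he⟩ := h2 L hL
  refine ⟨L, hL, hz, 1, one_ne_zero, fun τ => ?_⟩
  obtain ⟨a', h3, h4, h5⟩ := he τ
  exact ⟨a', a', h3, h3, h4, h4, by rw [map_one, one_pow, one_mul, one_mul]⟩

/-- **The main theorem** -/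
theorem fin (h : SolvableRatios M ι c m Ω) (hZ : FewZeros M m Ω) (E₂ : Type) [Field E₂]
    [NumberField E₂] [Algebra E E₂] (r : Type) [Fintype r] [DecidableEq r]
    (ρ : F.fixingSubgroup →* Matrix r r E₂)
    (hρ : TrivialOn Ω ρ) : HasL M.toRealizations ρ ∧
      RatioFormulaZ M ι c m F (n * Fintype.card r) ρ := by
  classical
  obtain ⟨δ, hδ⟩ := exists_delta ι c F
  have hρN : ∀ γ ∈ gal F Ω, ρ γ = 1 := fun γ hγ => hρ γ (Subgroup.mem_subgroupOf.1 hγ)
  refine ⟨(exists_all hD hc hF M hm Ω hΩ h E₂ r ρ hρN).hasL, ?_⟩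
  obtain ⟨E', _, _, _, F₀, hVn', lam, τ₀, hF₀, hA, hlam, i1, i2, i3, i4, Λ, Λ₀, hΛ, hΛ₀, hz⟩ := hZ
  -- the constant
  have hs : ∀ j, (M.hodge j : ℝ) < ((m : ℂ)).re := by
    intro j
    rw [Complex.intCast_re]
    exact_mod_cast (hm j).1
  have hs' : ∀ j, (M.hodge j : ℝ) < (((m + 1 : ℤ) : ℂ)).re := by
    intro j
    rw [Complex.intCast_re]
    have := (hm j).1
    exact_mod_cast this.trans (lt_add_one m)
  have hW : (Complex.I ^ (Module.finrank ℚ F / 2) * ι δ) ^ n *
      (gammaFactor M 1 ((m + 1 : ℤ) : ℂ) / gammaFactor M 1 (m : ℂ)) ≠ 0 := by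
    refine mul_ne_zero (pow_ne_zero _ (mul_ne_zero (pow_ne_zero _ Complex.I_ne_zero) ?_))
      (div_ne_zero (gamma_ne M 1 hs') (gamma_ne M 1 hs))
    exact (map_ne_zero ι).2 (delta_ne hδ)
  rw [formulaZ_iff hD hc hF M hm hδ]
  set W : ℂ := (Complex.I ^ (Module.finrank ℚ F / 2) * ι δ) ^ n *
      (gammaFactor M 1 ((m + 1 : ℤ) : ℂ) / gammaFactor M 1 (m : ℂ)) with hWdef
  set z : ℂ := (m : ℂ) with hzdef
  set z' : ℂ := ((m + 1 : ℤ) : ℂ) with hz'def
  -- the groups
  let N : Subgroup F.fixingSubgroup := gal F Ω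
  let V : Subgroup F.fixingSubgroup := gal F F₀
  have hNn : N.Normal := inferInstanceAs (gal F Ω).Normal
  have hVn : V.Normal := hVn'
  have hGf : Finite (F.fixingSubgroup ⧸ N) := inferInstance
  let π : F.fixingSubgroup →* F.fixingSubgroup ⧸ N := QuotientGroup.mk' N
  have hπs : Function.Surjective π := QuotientGroup.mk'_surjective N
  have hNV : N ≤ V := by
    intro γ hγ
    rw [Subgroup.mem_subgroupOf] at hγ ⊢
    exact IntermediateField.fixingSubgroup_antitone hF₀ hγ
  let K : Subgroup (F.fixingSubgroup ⧸ N) := V.map π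
  have hKn : K.Normal := Subgroup.Normal.map hVn π hπs
  have hV : V = K.comap π := by
    rw [Subgroup.comap_map_eq, QuotientGroup.ker_mk', sup_eq_left.mpr hNV]
  -- the field of coefficients
  have hne : NeZero (Monoid.exponent (F.fixingSubgroup ⧸ N)) := ⟨Monoid.exponent_ne_zero_of_finite⟩
  obtain ⟨E'', _, _, _, _, _, _, _, ζ, hζ⟩ :=
    exists_common E E' E₂ (Monoid.exponent (F.fixingSubgroup ⧸ N))
  have a2 : Algebra.IsAlgebraic E E' := by
    have : FiniteDimensional E E' := Module.Finite.of_restrictScalars_finite ℚ E E'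
    exact Algebra.IsAlgebraic.of_finite E E'
  have a3 : Algebra.IsAlgebraic E E₂ := by
    have : FiniteDimensional E E₂ := Module.Finite.of_restrictScalars_finite ℚ E E₂
    exact Algebra.IsAlgebraic.of_finite E E₂
  have a4 : Algebra.IsAlgebraic E E'' := by
    have : FiniteDimensional E E'' := Module.Finite.of_restrictScalars_finite ℚ E E''
    exact Algebra.IsAlgebraic.of_finite E E''
  have a5 : Algebra.IsAlgebraic E' E'' := by
    have : FiniteDimensional E' E'' := Module.Finite.of_restrictScalars_finite ℚ E' E''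
    exact Algebra.IsAlgebraic.of_finite E' E''
  have a6 : Algebra.IsAlgebraic E₂ E'' := by
    have : FiniteDimensional E₂ E'' := Module.Finite.of_restrictScalars_finite ℚ E₂ E''
    exact Algebra.IsAlgebraic.of_finite E₂ E''
  obtain ⟨τ₁, hτ₁⟩ := exists_ext E' E'' ℂ τ₀
  refine ratioZ_desc M.toRealizations E'' ρ hW ?_
  -- the system
  have hNonvan : Nonvan M.toRealizations N z' E'' := by
    intro r' _ _ ρ' hρ' ℓ hℓ τ
    have h1 := (exists_all hD hc hF M hm Ω hΩ h E'' r' ρ' hρ').ratio M.toRealizations ℓ hℓ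
    obtain ⟨e, he, h2⟩ := h1
    obtain ⟨a, a', h3, h4, h5, h6, h7⟩ := h2 τ
    exact ⟨a', h4, h6⟩
  have hsys : ∀ i : Ix (F.fixingSubgroup ⧸ N) E'', Group.IsSolvable i.1 →
      ∃ (ℓ : (E'' →+* ℂ) → ℂ → ℂ) (w : (E'' →+* ℂ) → ℂ),
        Rl M.toRealizations N W z' (mc (QuotientGroup.mk' N) i) ℓ w ∧
        ∃ e : E'', ∀ τ, Tendsto (ℓ τ) (𝓝[≠] z) (𝓝 (τ e * w τ)) := by
    intro i hi
    have hfin : Finite (F.fixingSubgroup ⧸ i.1.comap π) := by
      have h2 : N.FiniteIndex := Subgroup.finiteIndex_of_finite_quotient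
      have h3 : (i.1.comap π).FiniteIndex := Subgroup.finiteIndex_of_le (le_comap i.1)
      infer_instance
    have i1 : Fintype (F.fixingSubgroup ⧸ i.1.comap π) := Fintype.ofFinite _
    have hmap : (i.1.comap π).map π = i.1 := Subgroup.map_comap_eq_self_of_surjective hπs i.1
    obtain ⟨⟨ℓ, hℓ, -⟩, h2⟩ := hyp_sub hD hc hF M hm Ω hΩ h hδ E'' (i.1.comap π) (le_comap i.1)
      (by change Group.IsSolvable ((i.1.comap π).map π); rw [hmap]; exact hi)
      (pull π i.1 i.2) (pull_trivial i.1 i.2)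
    obtain ⟨e, he⟩ := h2 ℓ hℓ
    choose v hv0 hv hv' using he
    refine ⟨ℓ, fun τ => W ^ Fintype.card (F.fixingSubgroup ⧸ i.1.comap π) * v τ,
      ⟨_, inferInstance, inferInstance, _, induced_trivial N _ (le_comap i.1) _
        (pull_trivial i.1 i.2), fun γ => trace_induced π hπs i.1 i.2 γ, hℓ, v,
        fun τ => ⟨hv0 τ, hv τ⟩, fun τ => rfl⟩, e, fun τ => ?_⟩
    have h3 := hv' τ
    rwa [mul_assoc] at h3
  obtain ⟨Lf, Pe, hLf, hP, hmon, hS⟩ := transfer (M := M.toRealizations) (N := N) (z := z)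
    (z' := z') hW hsys hζ
  -- the L-functions
  obtain ⟨L, hL, hLΛ⟩ := hΛ
  obtain ⟨L₀, hL₀, hLΛ₀⟩ := hΛ₀
  have o1 : meromorphicOrderAt (Λ τ₀) z = meromorphicOrderAt (L τ₀) z := by
    have h1 : Λ τ₀ = fun s => gammaFactor M _ s * L τ₀ s := funext fun s => hLΛ τ₀ s
    rw [h1]
    obtain ⟨Q, hQ, h2⟩ := hL
    exact order_completed M hm _ ((h2 τ₀).1 z (Set.mem_univ z))
  have o2 : meromorphicOrderAt (Λ₀ τ₀) z = meromorphicOrderAt (L₀ τ₀) z := by
    have h1 : Λ₀ τ₀ = fun s => gammaFactor M _ s * L₀ τ₀ s := funext fun s => hLΛ₀ τ₀ s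
    rw [h1]
    obtain ⟨Q, hQ, h2⟩ := hL₀
    exact order_completed M hm _ ((h2 τ₀).1 z (Set.mem_univ z))
  rw [o1, o2] at hz
  have hL' : IsLFunction M.toRealizations (induced N (1 : N →* E''ˣ))
      (fun τ => L (τ.comp (algebraMap E' E''))) := by
    have h1 := isL_base M.toRealizations E'' _ hL
    rwa [base_induced (gal F Ω) 1 (1 : gal F Ω →* E''ˣ) (fun γ => by
      rw [MonoidHom.one_apply, MonoidHom.one_apply, Units.val_one, Units.val_one, map_one])] at h1
  let lamG : (F.fixingSubgroup ⧸ N) →* E''ˣ := QuotientGroup.lift N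
    ((Units.map (algebraMap E' E'').toMonoidHom).comp lam) (by
      intro x hx
      rw [MonoidHom.mem_ker, MonoidHom.comp_apply, hlam x (Subgroup.mem_subgroupOf.1 hx), map_one])
  have hL₀' : IsLFunction M.toRealizations (induced V
      ((lamG.comp (QuotientGroup.mk' N)).comp V.subtype))
      (fun τ => L₀ (τ.comp (algebraMap E' E''))) := by
    have h1 := isL_base M.toRealizations E'' _ hL₀
    rwa [base_induced (gal F F₀) _ ((lamG.comp (QuotientGroup.mk' N)).comp V.subtype)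
      (fun γ => rfl)] at h1
  -- the representation
  have hρ'' : ∀ γ, π γ = 1 → baseRep E'' ρ γ = 1 := by
    intro γ hγ
    change (ρ γ).map (algebraMap E₂ E'') = 1
    rw [hρN γ ((QuotientGroup.eq_one_iff γ).1 hγ), Matrix.map_one _ (map_zero _) (map_one _)]
  obtain ⟨s, hs⟩ := exists_quotient hπs (baseRep E'' ρ) hρ''
  have hz1 : meromorphicOrderAt (L (τ₁.comp (algebraMap E' E''))) z ≤
      max 1 (meromorphicOrderAt (L₀ (τ₁.comp (algebraMap E' E''))) z) := by
    rw [hτ₁]
    exact hz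
  refine hS.to s hs (fun ℓ hℓ τ => hNonvan r _ (fun γ hγ => hρ'' γ
    ((QuotientGroup.eq_one_iff γ).2 hγ)) ℓ hℓ τ) ?_
  let eq : F.fixingSubgroup ⧸ V ≃* (F.fixingSubgroup ⧸ N) ⧸ K := quoEquiv N V hNV
  rcases hA with ⟨p, hp, hpV⟩ | ⟨hsolv, hM⟩
  · refine core_p hζ hLf hP hmon hS hNonvan hL' K lamG hV hL₀' τ₁ hp ?_ hz1 s
    exact hpV.of_surjective eq.toMonoidHom eq.surjective
  · refine core_old hζ hLf hP hmon hS hNonvan hL' K lamG hV hL₀' τ₁ hsolv ?_ hz1 s
    intro χ hχ
    obtain ⟨k, σ, hσ, hσχ⟩ := infl_irr (π := eq.toMonoidHom) eq.surjective hχ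
    obtain ⟨U, ψ, hU⟩ := hM k σ hσ
    have h2 : Mono (fun x => χ (eq x)) := ⟨U, ψ, by
      change (fun x => χ (eq.toMonoidHom x)) = _
      rw [hσχ, hU]⟩
    have h3 := h2.comp (π := eq.symm.toMonoidHom) eq.symm.surjective
    convert h3 using 1
    funext y
    change χ y = χ (eq (eq.symm y))
    rw [MulEquiv.apply_symm_apply]

end Pool.Agent.Helper61K9.CT
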