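import Pool.Agent.Helper51K9.TI.Ind
import Pool.Agent.Helper61K9.CV.Stm

/-!
# L-functions and their values at a point, attached to the character of a representation
-/

set_option autoImplicit false
set_option linter.unusedSectionVars false

namespace Pool.Agent.Helper61K9.CT

open Matrix Polynomial Filter Topology Pool.Agent.Helper51K9.TI Pool.Agent.R389
  Pool.Agent.Helper61K9.CV

section

variable {Γ : Type} [Group Γ] {E : Type} [Field E] {n : ℕ} {P : Type} (M : Realizations Γ E n P)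
  (N : Subgroup Γ) (W z' : ℂ) {E' : Type} [Field E'] [Algebra E E']

/-- `f` is the character of a representation that is trivial on `N`, `ℓ` is its L-function and `w` the
value of the L-function at `z'` times `W ^ dim` -/
def Rl (f : Γ → E') (ℓ : (E' →+* ℂ) → ℂ → ℂ) (w : (E' →+* ℂ) → ℂ) : Prop :=
  ∃ (r : Type) (_ : Fintype r) (_ : DecidableEq r) (ρ : Γ →* Matrix r r E'), (∀ γ ∈ N, ρ γ = 1) ∧
    (∀ γ, (ρ γ).trace = f γ) ∧ IsLFunction M ρ ℓ ∧
    ∃ v : (E' →+* ℂ) → ℂ, (∀ τ, v τ ≠ 0 ∧ Tendsto (ℓ τ) (𝓝[≠] z') (𝓝 (v τ))) ∧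
      ∀ τ, w τ = W ^ Fintype.card r * v τ

variable {M N W z'}

theorem Rl.add {f f' : Γ → E'} {ℓ ℓ' : (E' →+* ℂ) → ℂ → ℂ} {w w' : (E' →+* ℂ) → ℂ}
    (h : Rl M N W z' f ℓ w) (h' : Rl M N W z' f' ℓ' w') :
    Rl M N W z' (fun γ => f γ + f' γ) (fun τ s => ℓ τ s * ℓ' τ s) (fun τ => w τ * w' τ) := by
  obtain ⟨r, i1, i2, ρ, h1, h2, h3, v, h4, h5⟩ := h
  obtain ⟨r', i1', i2', ρ', h1', h2', h3', v', h4', h5'⟩ := h'
  refine ⟨r ⊕ r', inferInstance, inferInstance, dsum ρ ρ', fun γ hγ => ?_, fun γ => ?_,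
    h3.mul M h3', fun τ => v τ * v' τ, fun τ => ⟨mul_ne_zero (h4 τ).1 (h4' τ).1,
      (h4 τ).2.mul (h4' τ).2⟩, fun τ => ?_⟩
  · rw [dsum_apply, h1 γ hγ, h1' γ hγ, fromBlocks_one]
  · rw [trace_dsum, h2, h2']
  · beta_reduce
    rw [Fintype.card_sum, pow_add, h5, h5']
    ring

theorem Rl.congr_f {f f' : Γ → E'} {ℓ : (E' →+* ℂ) → ℂ → ℂ} {w : (E' →+* ℂ) → ℂ}
    (h : Rl M N W z' f ℓ w) (hf : ∀ γ, f γ = f' γ) : Rl M N W z' f' ℓ w := by
  have : f = f' := funext hf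
  rwa [← this]

theorem Rl.congr_l {f : Γ → E'} {ℓ ℓ' : (E' →+* ℂ) → ℂ → ℂ} {w w' : (E' →+* ℂ) → ℂ}
    (h : Rl M N W z' f ℓ w) (hl : ∀ τ s, ℓ τ s = ℓ' τ s) (hw : ∀ τ, w τ = w' τ) :
    Rl M N W z' f ℓ' w' := by
  have h1 : ℓ = ℓ' := funext fun τ => funext fun s => hl τ s
  have h2 : w = w' := funext hw
  rwa [← h1, ← h2]

/-- the empty representation -/
theorem Rl.zero : Rl M N W z' (fun _ => (0 : E')) (fun _ _ => 1) (fun _ => 1) := by
  let ρ : Γ →* Matrix Empty Empty E' := 1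
  refine ⟨Empty, inferInstance, inferInstance, ρ, fun _ _ => rfl,
    fun γ => by simp [Matrix.trace], ⟨fun _ => 1, fun p j hj => ?_, fun τ => ⟨?_, 0, fun s _ => ?_⟩⟩,
    fun _ => 1, fun τ => ⟨one_ne_zero, tendsto_const_nhds⟩, fun τ => by simp⟩
  · have hs : Subsingleton (fixedBy (twist M ρ p j) (M.inertia p)) := by
      refine ⟨fun a b => Subtype.ext (funext fun x => x.2.elim)⟩
    refine ⟨0, fun v => funext fun x => x.2.elim, ?_⟩
    rw [Polynomial.map_one]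
    have h1 : LinearMap.charpoly (0 : Module.End (M.K p)
        (fixedBy (twist M ρ p j) (M.inertia p))) = 1 := by
      rw [← (LinearMap.charpoly_monic _).natDegree_eq_zero, LinearMap.charpoly_natDegree]
      exact Module.finrank_zero_of_subsingleton
    rw [h1, ← Polynomial.C_1, Polynomial.reverse_C]
  · exact fun z _ => MeromorphicAt.const 1 z
  · simp only [Polynomial.map_one, Polynomial.eval_one, inv_one]
    exact hasProd_one

theorem Rl.ne_zero (hW : W ≠ 0) {f : Γ → E'} {ℓ : (E' →+* ℂ) → ℂ → ℂ} {w : (E' →+* ℂ) → ℂ}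
    (h : Rl M N W z' f ℓ w) (τ : E' →+* ℂ) : w τ ≠ 0 := by
  obtain ⟨n, i1, i2, ρ, h1, h2, h3, v, h4, h5⟩ := h
  rw [h5]
  exact mul_ne_zero (pow_ne_zero _ hW) (h4 τ).1

theorem Rl.mero {f : Γ → E'} {ℓ : (E' →+* ℂ) → ℂ → ℂ} {w : (E' →+* ℂ) → ℂ}
    (h : Rl M N W z' f ℓ w) (τ : E' →+* ℂ) : MeromorphicOn (ℓ τ) Set.univ := by
  obtain ⟨n, i1, i2, ρ, h1, h2, ⟨Q, hQ, h3⟩, v, h4, h5⟩ := h
  exact (h3 τ).1

theorem Rl.top {f : Γ → E'} {ℓ : (E' →+* ℂ) → ℂ → ℂ} {w : (E' →+* ℂ) → ℂ}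
    (h : Rl M N W z' f ℓ w) (τ : E' →+* ℂ) (z : ℂ) : meromorphicOrderAt (ℓ τ) z ≠ ⊤ := by
  have hm := h.mero τ
  obtain ⟨n, i1, i2, ρ, h1, h2, h3, v, h4, h5⟩ := h
  have h6 : meromorphicOrderAt (ℓ τ) z' ≠ ⊤ := by
    have h7 := (tendsto_ne_zero_iff_meromorphicOrderAt_eq_zero
      (hm z' (Set.mem_univ _))).mp ⟨v τ, (h4 τ).1, (h4 τ).2⟩
    rw [h7]
    exact WithTop.zero_ne_top
  exact hm.meromorphicOrderAt_ne_top_of_isPreconnected isPreconnected_univ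
    (Set.mem_univ z') (Set.mem_univ z) h6

theorem rl_mul {f : Γ → E'} {ℓ : (E' →+* ℂ) → ℂ → ℂ} {w : (E' →+* ℂ) → ℂ}
    (h : Rl M N W z' f ℓ w) (k : ℕ) :
    Rl M N W z' (fun γ => (k : E') * f γ) (fun τ s => ℓ τ s ^ k) (fun τ => w τ ^ k) := by
  induction k with
  | zero =>
    refine (Rl.zero.congr_f fun γ => ?_).congr_l (fun τ s => ?_) fun τ => ?_
    · simp
    · simp
    · simp
  | succ k ih =>
    refine ((ih.add h).congr_f fun γ => ?_).congr_l (fun τ s => ?_) fun τ => ?_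
    · push_cast; ring
    · rw [pow_succ]
    · rw [pow_succ]

theorem rl_prod {I : Type} {f : I → Γ → E'} {ℓ : I → (E' →+* ℂ) → ℂ → ℂ}
    {w : I → (E' →+* ℂ) → ℂ} (s : Finset I) (b : I → ℕ)
    (h : ∀ i ∈ s, Rl M N W z' (f i) (ℓ i) (w i)) :
    Rl M N W z' (fun γ => ∑ i ∈ s, (b i : E') * f i γ) (fun τ z => ∏ i ∈ s, ℓ i τ z ^ b i)
      (fun τ => ∏ i ∈ s, w i τ ^ b i) := by
  classical
  induction s using Finset.induction_on with
  | empty =>
    refine (Rl.zero.congr_f fun γ => ?_).congr_l (fun τ s => ?_) fun τ => ?_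
    · simp
    · simp
    · simp
  | insert i s hi ih =>
    have h1 := ih fun j hj => h j (Finset.mem_insert_of_mem hj)
    have h2 := rl_mul (h i (Finset.mem_insert_self i s)) (b i)
    refine ((h2.add h1).congr_f fun γ => ?_).congr_l (fun τ z => ?_) fun τ => ?_
    · rw [Finset.sum_insert hi]
    · rw [Finset.prod_insert hi]
    · rw [Finset.prod_insert hi]

end

section

variable {Γ : Type} [Group Γ] {E : Type} [Field E] {n : ℕ} {P : Type} {M : Realizations Γ E n P}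
  {N : Subgroup Γ} [N.Normal] [Finite (Γ ⧸ N)] {W z' : ℂ} {E' : Type} [Field E'] [CharZero E']
  [Algebra E E'] [Algebra.IsAlgebraic E E']

/-- uniqueness -/
theorem Rl.unique {f : Γ → E'} {ℓ ℓ' : (E' →+* ℂ) → ℂ → ℂ} {w w' : (E' →+* ℂ) → ℂ}
    (h : Rl M N W z' f ℓ w) (h' : Rl M N W z' f ℓ' w') :
    (∀ (τ : E' →+* ℂ) (z : ℂ), ∀ᶠ s in 𝓝[≠] z, ℓ τ s = ℓ' τ s) ∧ ∀ τ, w τ = w' τ := by
  obtain ⟨r, i1, i2, ρ, h1, h2, h3, v, h4, h5⟩ := h
  obtain ⟨r', i1', i2', ρ', h1', h2', h3', v', h4', h5'⟩ := h'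
  have hπ : Function.Surjective (QuotientGroup.mk' N) := QuotientGroup.mk'_surjective N
  obtain ⟨s, hs⟩ := exists_quotient hπ ρ (fun γ hγ => h1 γ (by
    rwa [QuotientGroup.mk'_apply, QuotientGroup.eq_one_iff] at hγ))
  obtain ⟨s', hs'⟩ := exists_quotient hπ ρ' (fun γ hγ => h1' γ (by
    rwa [QuotientGroup.mk'_apply, QuotientGroup.eq_one_iff] at hγ))
  have i3 : Fintype (Γ ⧸ N) := Fintype.ofFinite _
  obtain ⟨A, B, hAB, hBA, hA⟩ := Helper8K9.DG.IsoL.iso_fin s s' (by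
    intro g
    obtain ⟨γ, rfl⟩ := hπ g
    rw [hs, hs', h2, h2'])
  have hA' : ∀ γ, ρ γ * A = A * ρ' γ := fun γ => by rw [← hs, ← hs']; exact hA _
  have hcard : Fintype.card r = Fintype.card r' := by
    have h6 := h2 1
    have h7 := h2' 1
    rw [map_one, trace_one] at h6 h7
    have : (Fintype.card r : E') = (Fintype.card r' : E') := by rw [h6, h7]
    exact_mod_cast this
  have key := (h3'.iso M hAB hBA hA').eventuallyEq M h3
  refine ⟨fun τ z => (key τ z).mono fun s hs => hs.symm, fun τ => ?_⟩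
  have h8 : v τ = v' τ := tendsto_nhds_unique ((h4 τ).2) (((h4' τ).2).congr' (key τ z'))
  rw [h5, h5', hcard, h8]

theorem toNat_sub (z : ℤ) : z = (z.toNat : ℤ) - ((-z).toNat : ℤ) := by omega

/-- the character of a monomial representation -/
noncomputable def mc {G : Type} [Group G] (π : Γ →* G) (i : Ix G E') (γ : Γ) : E' :=
  ind i.1 (fun u => ((i.2 u : E'ˣ) : E')) (π γ)

theorem rl_chr (hW : W ≠ 0) {G : Type} [Group G] (π : Γ →* G) {ℓ : Ix G E' → (E' →+* ℂ) → ℂ → ℂ}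
    {w : Ix G E' → (E' →+* ℂ) → ℂ} (z : ℂ) (a : Ix G E' →₀ ℤ)
    (h : ∀ i ∈ a.support, Rl M N W z' (mc π i) (ℓ i) (w i)) {f : Γ → E'}
    {L : (E' →+* ℂ) → ℂ → ℂ} {V : (E' →+* ℂ) → ℂ} (hf : Rl M N W z' f L V)
    (hfa : ∀ γ, f γ = chr a (π γ)) :
    (∀ τ, ∀ᶠ s in 𝓝[≠] z, L τ s = a.prod fun i n => ℓ i τ s ^ n) ∧
    ∀ τ, V τ = a.prod fun i n => w i τ ^ n := by
  classical
  have h1 := rl_prod a.support (fun i => (a i).toNat) h
  have h2 := rl_prod a.support (fun i => (-(a i)).toNat) h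
  have h3 := hf.add h2
  have h4 : ∀ γ, f γ + ∑ i ∈ a.support, (((-(a i)).toNat : ℕ) : E') * mc π i γ
      = ∑ i ∈ a.support, (((a i).toNat : ℕ) : E') * mc π i γ := by
    intro γ
    rw [hfa, chr, Finsupp.sum, ← Finset.sum_add_distrib]
    refine Finset.sum_congr rfl fun i _ => ?_
    have h5 := congrArg (fun z : ℤ => (z : E')) (toNat_sub (a i))
    beta_reduce at h5
    push_cast at h5
    rw [mc]
    linear_combination (ind i.1 (fun u => ((i.2 u : E'ˣ) : E')) (π γ)) * h5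
  obtain ⟨h5, h6⟩ := (h3.congr_f h4).unique h1
  refine ⟨fun τ => ?_, fun τ => ?_⟩
  · have h7 : ∀ᶠ s in 𝓝[≠] z, ∀ i ∈ a.support, ℓ i τ s ≠ 0 := by
      rw [Filter.eventually_all_finset]
      intro i hi
      have h8 := ((h i hi).mero τ) z (Set.mem_univ z)
      exact (meromorphicOrderAt_ne_top_iff_eventually_ne_zero h8).mp ((h i hi).top τ z)
    filter_upwards [h5 τ z, h7] with s h8 h9
    have h10 : ∏ i ∈ a.support, ℓ i τ s ^ (-(a i)).toNat ≠ 0 :=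
      Finset.prod_ne_zero_iff.mpr fun i hi => pow_ne_zero _ (h9 i hi)
    apply mul_right_cancel₀ h10
    rw [h8, Finsupp.prod, ← Finset.prod_mul_distrib]
    refine Finset.prod_congr rfl fun i hi => ?_
    rw [← zpow_natCast, ← zpow_natCast, ← zpow_add₀ (h9 i hi)]
    congr 1
    have := toNat_sub (a i)
    omega
  · have h9 : ∀ i ∈ a.support, w i τ ≠ 0 := fun i hi => (h i hi).ne_zero hW τ
    have h10 : ∏ i ∈ a.support, w i τ ^ (-(a i)).toNat ≠ 0 :=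
      Finset.prod_ne_zero_iff.mpr fun i hi => pow_ne_zero _ (h9 i hi)
    apply mul_right_cancel₀ h10
    have h8 := h6 τ
    beta_reduce at h8
    rw [h8, Finsupp.prod, ← Finset.prod_mul_distrib]
    refine Finset.prod_congr rfl fun i hi => ?_
    rw [← zpow_natCast, ← zpow_natCast, ← zpow_add₀ (h9 i hi)]
    congr 1
    have := toNat_sub (a i)
    omega

end

end Pool.Agent.Helper61K9.CT
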