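import Pool.Agent.Helper61K9.CT.Rl
import Pool.Agent.Helper61K9.CV.Brg
import Pool.Agent.Helper61K9.CV.Grp2
import Pool.Agent.Helper61K9.CV.OldM

/-!
# The transfer principle and its consequences
-/

set_option autoImplicit false
set_option linter.unusedSectionVars false

namespace Pool.Agent.Helper61K9.CT

open Matrix Polynomial Filter Topology Pool.Agent.Helper51K9.TI Pool.Agent.R389
  Pool.Agent.Helper61K9.CV Pool.Agent.H541R3.ART Pool.Agent.W446.AS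

section

variable {Γ : Type} [Group Γ] {E : Type} [Field E] {n : ℕ} {P : Type} (M : Realizations Γ E n P)
  {E' : Type} [Field E'] [Algebra E E'] {r : Type} [Fintype r] [DecidableEq r]

/-- The L-functions of `M ⊗ ρ` have nonzero values at `z'` and finite values at `z`, the quotient is
`e W ^ dim ρ` with `e` in the field of coefficients, possibly `0` -/
def RatioZ (W z z' : ℂ) (ρ : Γ →* Matrix r r E') : Prop :=
  ∀ L, IsLFunction M ρ L → ∃ e : E', ∀ τ : E' →+* ℂ, ∃ a' : ℂ, a' ≠ 0 ∧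
    Tendsto (L τ) (𝓝[≠] z') (𝓝 a') ∧
    Tendsto (L τ) (𝓝[≠] z) (𝓝 (τ e * W ^ Fintype.card r * a'))

end

section

variable {Γ : Type} [Group Γ] {E : Type} [Field E] {n : ℕ} {P : Type} {M : Realizations Γ E n P}
  {N : Subgroup Γ} [N.Normal] [Finite (Γ ⧸ N)] {W z z' : ℂ} {E' : Type} [Field E'] [NumberField E']
  [Algebra E E'] [Algebra.IsAlgebraic E E']

/-- the functions `L`, `Pe` describe the L-functions of the twists of `M` and their values at `z'` -/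
def Sys (M : Realizations Γ E n P) (N : Subgroup Γ) [N.Normal] (W z z' : ℂ)
    (L : (E' →+* ℂ) → ((Γ ⧸ N) → ℂ) → ℂ → ℂ) (Pe : (E' →+* ℂ) → ((Γ ⧸ N) → ℂ) → ℂ) : Prop :=
  ∀ (f : (Γ ⧸ N) → E') (ℓ : (E' →+* ℂ) → ℂ → ℂ) (w : (E' →+* ℂ) → ℂ),
    Rl M N W z' (fun γ => f (QuotientGroup.mk' N γ)) ℓ w → (∃ τ : E' →+* ℂ, (fun g => τ (f g)) ∈
      AddSubgroup.closure (Irr (Γ ⧸ N))) →
    (∀ (τ : E' →+* ℂ) (k : ((Γ ⧸ N) → ℂ) → ℕ), IsDecomp (fun g => τ (f g)) k →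
      ∀ᶠ s in 𝓝[≠] z, ∏ᶠ χ ∈ Irr (Γ ⧸ N), L τ χ s ^ k χ = ℓ τ s) ∧
    ∃ e : E', e ≠ 0 ∧ ∀ (τ : E' →+* ℂ) (k : ((Γ ⧸ N) → ℂ) → ℕ), IsDecomp (fun g => τ (f g)) k →
      ∏ᶠ χ ∈ Irr (Γ ⧸ N), Pe τ χ ^ k χ = τ e * w τ

/-- **The transfer principle** -/
theorem transfer (hW : W ≠ 0)
    (hsys : ∀ i : Ix (Γ ⧸ N) E', Group.IsSolvable i.1 → ∃ (ℓ : (E' →+* ℂ) → ℂ → ℂ)
      (w : (E' →+* ℂ) → ℂ), Rl M N W z' (mc (QuotientGroup.mk' N) i) ℓ w ∧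
      ∃ e : E', ∀ τ, Tendsto (ℓ τ) (𝓝[≠] z) (𝓝 (τ e * w τ))) {ζ : E'}
    (hζ : IsPrimitiveRoot ζ (Monoid.exponent (Γ ⧸ N))) :
    ∃ (L : (E' →+* ℂ) → ((Γ ⧸ N) → ℂ) → ℂ → ℂ) (Pe : (E' →+* ℂ) → ((Γ ⧸ N) → ℂ) → ℂ),
      (∀ τ, ∀ χ ∈ Irr (Γ ⧸ N), MeromorphicAt (L τ χ) z ∧ meromorphicOrderAt (L τ χ) z ≠ ⊤) ∧
      (∀ τ, ∀ χ ∈ Irr (Γ ⧸ N), Pe τ χ ≠ 0) ∧
      (∀ (U : Subgroup (Γ ⧸ N)) (ψ : U →* E'ˣ), Group.IsSolvable U →
        Deligne L Pe z (ind U (fun u => ((ψ u : E'ˣ) : E')))) ∧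
      Sys M N W z z' L Pe := by
  classical
  let ℓ₀ : Ix (Γ ⧸ N) E' → (E' →+* ℂ) → ℂ → ℂ := fun i =>
    if h : Group.IsSolvable i.1 then (hsys i h).choose else fun _ _ => 1
  let w₀ : Ix (Γ ⧸ N) E' → (E' →+* ℂ) → ℂ := fun i =>
    if h : Group.IsSolvable i.1 then (hsys i h).choose_spec.choose else fun _ => 1
  have hs : ∀ i : Ix (Γ ⧸ N) E', Group.IsSolvable i.1 →
      Rl M N W z' (mc (QuotientGroup.mk' N) i) (ℓ₀ i) (w₀ i) ∧
      ∃ e : E', ∀ τ, Tendsto (ℓ₀ i τ) (𝓝[≠] z) (𝓝 (τ e * w₀ i τ)) := by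
    intro i h
    simp only [ℓ₀, w₀, dif_pos h]
    exact (hsys i h).choose_spec.choose_spec
  have hTame : ∀ U : Subgroup (Γ ⧸ N), Tame U → Group.IsSolvable U := fun U h => h.solvable
  obtain ⟨L, Pe, hL, hP, hmon, hmain⟩ := brg BrgL.gen (Γ ⧸ N) E' ζ hζ
    (fun U => Group.IsSolvable U) hTame z ℓ₀ w₀
    (fun i hi τ => ⟨((hs i hi).1.mero _) _ (Set.mem_univ _), (hs i hi).1.top _ _⟩)
    (fun i hi τ => (hs i hi).1.ne_zero hW _)
    (fun a ha h0 => by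
      obtain ⟨h1, h2⟩ := rl_chr (M := M) (N := N) (z' := z') hW (QuotientGroup.mk' N) z a
        (fun i hi => (hs i (ha i hi)).1)
        (Rl.zero (M := M) (N := N) (W := W) (z' := z') (E' := E')) (fun γ => by rw [h0]; rfl)
      refine ⟨fun τ => (h1 τ).mono fun s hs1 => hs1.symm, 1, one_ne_zero, fun τ => ?_⟩
      rw [map_one]
      exact (h2 τ).symm)
    (fun i hi => (hs i hi).2)
  refine ⟨L, Pe, hL, hP, fun U ψ hU => hmon U ψ hU, fun f ℓ w hf hv => ?_⟩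
  obtain ⟨τ₁, hv⟩ := hv
  obtain ⟨a, ha, haf⟩ := BrgL.gen (Γ ⧸ N) E' ζ hζ f τ₁ hv
  have ha' : ∀ i ∈ a.support, Group.IsSolvable i.1 := fun i hi =>
    hTame _ (Or.inr (ha i hi))
  obtain ⟨h1, h2⟩ := rl_chr (M := M) (N := N) (z' := z') hW (QuotientGroup.mk' N) z a
    (fun i hi => (hs i (ha' i hi)).1) hf (fun γ => by rw [haf])
  obtain ⟨h3, e', he', h4⟩ := hmain a ha'
  rw [haf] at h3 h4
  refine ⟨fun τ k hk => ?_, e', he', fun τ k hk => ?_⟩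
  · filter_upwards [h3 τ k hk, h1 τ] with s hs1 hs2
    rw [hs1, hs2]
  · rw [h4 τ k hk, h2 τ]

theorem sub_closure {G : Type} [Group G] [Finite G] {f : G → ℂ}
    (h : f ∈ AddSubmonoid.closure (Irr G)) : f ∈ AddSubgroup.closure (Irr G) := by
  have h3 : AddSubmonoid.closure (Irr G) ≤ (AddSubgroup.closure (Irr G)).toAddSubmonoid := by
    rw [AddSubmonoid.closure_le]
    exact AddSubgroup.subset_closure
  exact h3 h

theorem mat_closure {G : Type} [Group G] [Finite G] {r : Type} [Fintype r] [DecidableEq r]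
    (s : G →* Matrix r r E') (τ : E' →+* ℂ) :
    (fun g => τ ((s g).trace)) ∈ AddSubmonoid.closure (Irr G) := by
  have h := base_change τ (toRep s)
  have h2 : (fun g => τ ((toRep s).character g)) = fun g => τ ((s g).trace) := by
    funext g
    rw [toRep_character]
  rwa [h2] at h

theorem ind_closure {G : Type} [Group G] [Finite G] (U : Subgroup G) (ψ : U →* E'ˣ)
    (τ : E' →+* ℂ) :
    (fun g => τ (ind U (fun u => ((ψ u : E'ˣ) : E')) g)) ∈ AddSubgroup.closure (Irr G) := by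
  rw [ind_emb]
  exact virt_ind U (AddSubgroup.subset_closure (lin_irr _))

/-- from the functions to the L-functions -/
theorem Sys.to {L : (E' →+* ℂ) → ((Γ ⧸ N) → ℂ) → ℂ → ℂ} {Pe : (E' →+* ℂ) → ((Γ ⧸ N) → ℂ) → ℂ}
    (hS : Sys M N W z z' L Pe) {r : Type} [Fintype r] [DecidableEq r]
    (s : (Γ ⧸ N) →* Matrix r r E') {ρ : Γ →* Matrix r r E'} (hρ : ∀ γ, s (QuotientGroup.mk' N γ) = ρ γ)
    (hne : ∀ ℓ, IsLFunction M ρ ℓ → ∀ τ, ∃ a' : ℂ, a' ≠ 0 ∧ Tendsto (ℓ τ) (𝓝[≠] z') (𝓝 a'))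
    (hD : Deligne L Pe z (toRep s).character) : RatioZ M W z z' ρ := by
  intro ℓ hℓ
  obtain ⟨e₀, he₀⟩ := hD
  choose v hv0 hv using hne ℓ hℓ
  let f : (Γ ⧸ N) → E' := fun g => (s g).trace
  have hf : (toRep s).character = f := funext fun g => toRep_character s g
  rw [hf] at he₀
  have hR : Rl M N W z' (fun γ => f (QuotientGroup.mk' N γ)) ℓ
      (fun τ => W ^ Fintype.card r * v τ) :=
    ⟨r, inferInstance, inferInstance, ρ, fun γ hγ => by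
      rw [← hρ]
      have : QuotientGroup.mk' N γ = 1 := (QuotientGroup.eq_one_iff γ).2 hγ
      rw [this, map_one], fun γ => by rw [← hρ], hℓ, v, fun τ => ⟨hv0 τ, hv τ⟩, fun τ => rfl⟩
  obtain ⟨τ₁⟩ : Nonempty (E' →+* ℂ) := inferInstance
  obtain ⟨h1, e, he, h2⟩ := hS f ℓ _ hR ⟨τ₁, sub_closure (mat_closure s τ₁)⟩
  refine ⟨e₀ * e, fun τ => ⟨v τ, hv0 τ, hv τ, ?_⟩⟩
  obtain ⟨k, hk⟩ := decomp_of_closure (mat_closure s τ)
  have h3 := h1 τ k hk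
  have h4 := h2 τ k hk
  have h5 := he₀ τ k hk
  have h6 := h5.congr' h3
  rw [h4] at h6
  convert h6 using 2
  rw [map_mul]
  ring

end

end Pool.Agent.Helper61K9.CT
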